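import Pool.Agent.H74.RCM.Stmts

set_option autoImplicit false

namespace Pool.RCM

open scoped Classical
open Finset

namespace DBLaux

lemma sp_sq {W : Type} (σ : W → Bool) (v : W) : sp σ v * sp σ v = 1 := by
  unfold sp; split_ifs <;> norm_num

lemma sp_xor {W : Type} (σ ρ : W → Bool) (v : W) :
    sp (fun u => xor (σ u) (ρ u)) v = sp σ v * sp ρ v := by
  unfold sp
  cases h1 : σ v <;> cases h2 : ρ v <;> simp [h1, h2]

lemma chi_xor {W : Type} (T : Finset W) (σ ρ : W → Bool) :
    chi T (fun u => xor (σ u) (ρ u)) = chi T σ * chi T ρ := by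
  unfold chi
  rw [← Finset.prod_mul_distrib]
  exact Finset.prod_congr rfl fun v _ => sp_xor σ ρ v

lemma chi_sq {W : Type} (T : Finset W) (σ : W → Bool) : chi T σ * chi T σ = 1 := by
  unfold chi
  rw [← Finset.prod_mul_distrib]
  exact Finset.prod_eq_one fun v _ => sp_sq σ v

lemma chi_pm {W : Type} (T : Finset W) (σ : W → Bool) : chi T σ = 1 ∨ chi T σ = -1 :=
  mul_self_eq_one_iff.mp (chi_sq T σ)

end DBLaux

open DBLaux in
theorem DBL (h1 : PO1Stmt) (h2 : PO2Stmt) : DBLStmt := by
  intro W _
  obtain ⟨hc, hchi, hadd, hmul, -⟩ := h1 W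
  obtain ⟨hexp, -, -⟩ := h2 W
  refine ⟨?_, ?_, ?_⟩
  · intro H hH ρ
    obtain ⟨c, hc0, hcH⟩ := hH
    have hP : Pos (fun σ => H σ + H (fun v => xor (σ v) (ρ v))) := by
      refine ⟨fun T => c T * (1 + chi T ρ), ?_, ?_⟩
      · intro T
        refine mul_nonneg (hc0 T) ?_
        rcases chi_pm T ρ with h | h <;> rw [h] <;> norm_num
      · intro σ
        show H σ + H (fun v => xor (σ v) (ρ v)) = ∑ T, c T * (1 + chi T ρ) * chi T σ
        rw [hcH σ, hcH (fun v => xor (σ v) (ρ v)), ← Finset.sum_add_distrib]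
        refine Finset.sum_congr rfl fun T _ => ?_
        rw [chi_xor]; ring
    have := hexp _ hP
    simpa only [Real.exp_add] using this
  · intro T ρ
    rcases chi_pm T ρ with h | h
    · have : (fun σ => (1 + chi T σ) * (1 + chi T (fun v => xor (σ v) (ρ v)))) =
          fun σ => 2 + (chi T σ + chi T σ) := by
        funext σ
        rw [chi_xor, h]
        have := chi_sq T σ
        linear_combination this
      rw [this]
      exact hadd _ _ (hc 2 (by norm_num)) (hadd _ _ (hchi T) (hchi T))
    · have : (fun σ => (1 + chi T σ) * (1 + chi T (fun v => xor (σ v) (ρ v)))) =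
          fun _ => (0 : ℝ) := by
        funext σ
        rw [chi_xor, h]
        have := chi_sq T σ
        linear_combination -this
      rw [this]
      exact hc 0 le_rfl
  · intro w₁ w₂ hw₁ hw₂ ρ
    have := hmul _ _ (hw₁ ρ) (hw₂ ρ)
    refine (congrArg Pos ?_).mp this
    funext σ
    ring

end Pool.RCM
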