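import Pool.Agent.H74.RCM.Stmts

set_option autoImplicit false

namespace Pool.RCM

open scoped Classical
open Finset

variable {V E : Type} [Fintype V] [Fintype E]

namespace SPLaux

/-- adding one unit at the edge `e` changes the sources by `{a e, b e}` -/
lemma isSrc_add (a b : E → V) (n n' : E → ℕ) (e : E) (hne : a e ≠ b e) (h0 : n e = 0)
    (h1 : n' e = 1) (h : ∀ f, f ≠ e → n' f = n f) (S : Finset V) :
    IsSrc a b n' S ↔ IsSrc a b n (symmDiff S {a e, b e}) := by
  have hdeg : ∀ v, deg a b n' v = deg a b n v +
      ((if a e = v then 1 else 0) + (if b e = v then 1 else 0)) := by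
    intro v
    unfold deg
    rw [← Finset.add_sum_erase _ _ (Finset.mem_univ e),
      ← Finset.add_sum_erase _ (fun e => ((if a e = v then n e else 0) +
        (if b e = v then n e else 0))) (Finset.mem_univ e)]
    have : ∑ x ∈ univ.erase e, ((if a x = v then n' x else 0) + (if b x = v then n' x else 0)) =
        ∑ x ∈ univ.erase e, ((if a x = v then n x else 0) + (if b x = v then n x else 0)) := by
      refine Finset.sum_congr rfl fun f hf => ?_
      rw [h f (Finset.ne_of_mem_erase hf)]
    rw [this, h0, h1]
    simp only [ite_self, add_zero, zero_add]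
    ring
  unfold IsSrc
  refine forall_congr' fun v => ?_
  rw [hdeg v, Finset.mem_symmDiff, Finset.mem_insert, Finset.mem_singleton]
  by_cases h1 : v = a e
  · have h2 : ¬ v = b e := fun h2 => hne (h1.symm.trans h2)
    rw [if_pos h1.symm, if_neg (fun h => h2 h.symm), add_zero, Nat.odd_add_one]
    tauto
  · by_cases h2 : v = b e
    · rw [if_neg (fun h => h1 h.symm), if_pos h2.symm, zero_add, Nat.odd_add_one]
      tauto
    · rw [if_neg (fun h => h1 h.symm), if_neg (fun h => h2 h.symm), add_zero, add_zero]
      tauto

lemma isSrc_congr (a b : E → V) (n n' : E → ℕ) (h : ∀ f, n' f = n f) (S : Finset V) :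
    IsSrc a b n' S ↔ IsSrc a b n S := by
  rw [funext h]

/-- sum over configurations, organised by the value at `e` -/
lemma split_sum {X : Type} [Fintype X] (e : E) (x₀ : X) (F : (E → X) → ℝ) :
    ∑ ω : E → X, F ω =
      ∑ ω : E → X, if ω e = x₀ then ∑ x : X, F (Function.update ω e x) else 0 := by
  rw [← Finset.sum_filter]
  rw [Finset.sum_comm' (t' := Finset.univ) (s' := fun _ => univ.filter fun ω : E → X => ω e = x₀)
    (by simp)]
  have h2 : ∀ x : X, ∑ ω ∈ univ.filter (fun ω : E → X => ω e = x₀), F (Function.update ω e x) =
      ∑ ω ∈ univ.filter (fun ω : E → X => ω e = x), F ω := by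
    intro x
    refine Finset.sum_bij' (fun ω _ => Function.update ω e x) (fun ω _ => Function.update ω e x₀)
      ?_ ?_ ?_ ?_ ?_
    · intro ω _; simp
    · intro ω _; simp
    · intro ω hω
      have : ω e = x₀ := (Finset.mem_filter.mp hω).2
      simp [← this]
    · intro ω hω
      have : ω e = x := (Finset.mem_filter.mp hω).2
      simp [← this]
    · intro ω _; rfl
  rw [Finset.sum_congr rfl fun x _ => h2 x]
  exact (Finset.sum_fiberwise univ (fun ω : E → X => ω e) F).symm

end SPLaux

open SPLaux in
theorem SPL : SPLStmt := by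
  intro V E _ _ a b J e S₁ S₂ D hne
  -- weight of the other edges
  set G : (E → St) → ℝ := fun ω => ∏ f ∈ univ.erase e, wst (J f) (ω f) with hG
  have hG0 : ∀ (S T : Finset V) (D' : Set E → Prop), FS a b (upd J e 0) S T D' =
      ∑ ω : E → St, if ω e = none then
        (if IsSrc a b (par1 ω) S ∧ IsSrc a b (par2 ω) T ∧ D' (supp ω) then G ω else 0) else 0 := by
    intro S T D'
    unfold FS
    refine Finset.sum_congr rfl fun ω _ => ?_
    have hprod : ∏ f, wst (upd J e 0 f) (ω f) = wst 0 (ω e) * G ω := by
      rw [← Finset.mul_prod_erase _ _ (Finset.mem_univ e)]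
      congr 1
      · simp [upd]
      · refine Finset.prod_congr rfl fun f hf => ?_
        rw [upd, if_neg (Finset.ne_of_mem_erase hf)]
    rw [hprod]
    by_cases he : ω e = none
    · rw [if_pos he, he]
      simp [wst]
    · rw [if_neg he]
      have : wst 0 (ω e) = 0 := by
        rcases h : ω e with _ | ⟨_ | _, _ | _⟩
        · exact absurd h he
        all_goals simp [wst]
      rw [this]; simp
  have hL : FS a b J S₁ S₂ D = ∑ ω : E → St, if ω e = none then
      ∑ x : St, (if IsSrc a b (par1 (Function.update ω e x)) S₁ ∧
        IsSrc a b (par2 (Function.update ω e x)) S₂ ∧ D (supp (Function.update ω e x)) then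
          wst (J e) x * G ω else 0) else 0 := by
    unfold FS
    rw [split_sum e (none : St)]
    refine Finset.sum_congr rfl fun ω _ => ?_
    by_cases he : ω e = none
    · rw [if_pos he, if_pos he]
      refine Finset.sum_congr rfl fun x _ => ?_
      have hprod : ∏ f, wst (J f) (Function.update ω e x f) = wst (J e) x * G ω := by
        rw [← Finset.mul_prod_erase _ _ (Finset.mem_univ e)]
        congr 1
        · simp
        · refine Finset.prod_congr rfl fun f hf => ?_
          rw [Function.update_of_ne (Finset.ne_of_mem_erase hf)]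
      rw [hprod]
    · rw [if_neg he, if_neg he]
  rw [hL, hG0, hG0, hG0, hG0, hG0, Finset.mul_sum, Finset.mul_sum, Finset.mul_sum, Finset.mul_sum,
    ← Finset.sum_add_distrib, ← Finset.sum_add_distrib, ← Finset.sum_add_distrib,
    ← Finset.sum_add_distrib]
  refine Finset.sum_congr rfl fun ω _ => ?_
  by_cases he : ω e = none
  swap
  · simp only [if_neg he]; ring
  simp only [if_pos he]
  have hsupp : ∀ p : Bool × Bool, supp (Function.update ω e (some p)) = insert e (supp ω) := by
    intro p
    ext f
    simp only [supp, Set.mem_setOf_eq, Set.mem_insert_iff]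
    by_cases hf : f = e
    · subst hf; simp
    · rw [Function.update_of_ne hf]; simp [hf]
  have h1 : ∀ (i : Bool) (S : Finset V), IsSrc a b (par1 (Function.update ω e (some (true, i)))) S ↔
      IsSrc a b (par1 ω) (symmDiff S {a e, b e}) := by
    intro i S
    refine isSrc_add a b _ _ e hne ?_ ?_ ?_ S
    · simp [par1, he]
    · simp [par1]
    · intro f hf; simp [par1, Function.update_of_ne hf]
  have h1' : ∀ (i : Bool) (S : Finset V),
      IsSrc a b (par1 (Function.update ω e (some (false, i)))) S ↔ IsSrc a b (par1 ω) S := by
    intro i S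
    refine isSrc_congr a b _ _ ?_ S
    intro f
    by_cases hf : f = e
    · subst hf; simp [par1, he]
    · simp [par1, Function.update_of_ne hf]
  have h2 : ∀ (i : Bool) (S : Finset V), IsSrc a b (par2 (Function.update ω e (some (i, true)))) S ↔
      IsSrc a b (par2 ω) (symmDiff S {a e, b e}) := by
    intro i S
    refine isSrc_add a b _ _ e hne ?_ ?_ ?_ S
    · simp [par2, he]
    · simp [par2]
    · intro f hf; simp [par2, Function.update_of_ne hf]
  have h2' : ∀ (i : Bool) (S : Finset V),
      IsSrc a b (par2 (Function.update ω e (some (i, false)))) S ↔ IsSrc a b (par2 ω) S := by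
    intro i S
    refine isSrc_congr a b _ _ ?_ S
    intro f
    by_cases hf : f = e
    · subst hf; simp [par2, he]
    · simp [par2, Function.update_of_ne hf]
  have hnone : Function.update ω e none = ω := by rw [← he]; simp
  rw [Fintype.sum_option, Fintype.sum_prod_type, Fintype.sum_bool, Fintype.sum_bool,
    Fintype.sum_bool]
  simp only [hsupp, h1, h1', h2, h2', hnone]
  simp only [wst]
  simp only [mul_ite, mul_zero]
  ring

end Pool.RCM
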