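import Pool.Agent.H74.RCM.Stmts

set_option autoImplicit false

namespace Pool.RCM

open scoped Classical
open Finset

namespace SPNaux

lemma sp_pm {W : Type} (σ : W → Bool) (v : W) : sp σ v = 1 ∨ sp σ v = -1 := by
  unfold sp; split_ifs <;> simp

lemma exp_spin (t s : ℝ) (hs : s = 1 ∨ s = -1) :
    Real.exp (t * s) = Real.cosh t + s * Real.sinh t := by
  rcases hs with rfl | rfl
  · rw [mul_one, one_mul, Real.cosh_add_sinh]
  · rw [mul_neg, mul_one, ← Real.cosh_sub_sinh]; ring

/-- sum over spins of a product of powers -/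
lemma sum_prod_pow {V : Type} [Fintype V] (m : V → ℕ) :
    ∑ σ : V → Bool, ∏ v, sp σ v ^ m v = if ∀ v, Even (m v) then 2 ^ Fintype.card V else 0 := by
  have h1 : ∑ σ : V → Bool, ∏ v, sp σ v ^ m v =
      ∏ v : V, ∑ β : Bool, (if β then (-1 : ℝ) else 1) ^ m v := by
    rw [Finset.prod_univ_sum, Fintype.piFinset_univ]
    rfl
  rw [h1]
  have h2 : ∀ v : V, ∑ β : Bool, (if β then (-1 : ℝ) else 1) ^ m v =
      if Even (m v) then 2 else 0 := by
    intro v
    rw [Fintype.sum_bool]
    by_cases h : Even (m v)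
    · simp [h, h.neg_one_pow]; norm_num
    · have : Odd (m v) := Nat.not_even_iff_odd.mp h
      simp [h, this.neg_one_pow]
  rw [Finset.prod_congr rfl fun v _ => h2 v]
  by_cases h : ∀ v, Even (m v)
  · rw [if_pos h, Finset.prod_congr rfl fun v _ => if_pos (h v)]
    simp [Finset.card_univ]
  · rw [if_neg h]
    push_neg at h
    obtain ⟨v, hv⟩ := h
    exact Finset.prod_eq_zero (Finset.mem_univ v) (if_neg hv)

lemma chi_eq {V : Type} [Fintype V] (S : Finset V) (σ : V → Bool) :
    chi S σ = ∏ v, sp σ v ^ (if v ∈ S then 1 else 0) := by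
  unfold chi
  rw [← Finset.prod_filter_mul_prod_filter_not univ (fun v => v ∈ S)]
  have h1 : ∏ v ∈ univ.filter (fun v => v ∈ S), sp σ v ^ (if v ∈ S then 1 else 0) =
      ∏ v ∈ S, sp σ v := by
    have : univ.filter (fun v => v ∈ S) = S := by ext; simp
    rw [this]
    exact Finset.prod_congr rfl fun v hv => by rw [if_pos hv, pow_one]
  have h2 : ∏ v ∈ univ.filter (fun v => ¬ v ∈ S), sp σ v ^ (if v ∈ S then 1 else 0) = 1 := by
    refine Finset.prod_eq_one fun v hv => ?_
    rw [if_neg (Finset.mem_filter.mp hv).2, pow_zero]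
  rw [h1, h2, mul_one]

lemma prod_deg {V E : Type} [Fintype V] [Fintype E] (a b : E → V) (n : E → ℕ) (σ : V → Bool) :
    ∏ v, sp σ v ^ deg a b n v = ∏ e, (sp σ (a e) * sp σ (b e)) ^ n e := by
  unfold deg
  rw [Finset.prod_congr rfl fun v _ => (Finset.prod_pow_eq_pow_sum _ _ (sp σ v)).symm]
  rw [Finset.prod_comm]
  refine Finset.prod_congr rfl fun e _ => ?_
  rw [Finset.prod_congr rfl fun v _ => pow_add (sp σ v) _ _, Finset.prod_mul_distrib, mul_pow]
  have h : ∀ w : V, ∏ v, sp σ v ^ (if w = v then n e else 0) = sp σ w ^ n e := by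
    intro w
    rw [Finset.prod_eq_single w]
    · rw [if_pos rfl]
    · intro v _ hv; rw [if_neg (Ne.symm hv), pow_zero]
    · intro h; exact absurd (Finset.mem_univ w) h
  rw [h, h]

end SPNaux

open SPNaux in
theorem SPN : SPNStmt := by
  intro V E _ _ a b J S
  have hexp : ∀ σ : V → Bool, Real.exp (Ham a b J σ) =
      ∑ η : E → Bool, (∏ e, (sp σ (a e) * sp σ (b e)) ^ (if η e then 1 else 0)) *
        ∏ e, (if η e then Real.sinh (J e) else Real.cosh (J e)) := by
    intro σ
    unfold Ham
    rw [Real.exp_sum]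
    have h1 : ∀ e : E, Real.exp (J e * (sp σ (a e) * sp σ (b e))) =
        ∑ β : Bool, (sp σ (a e) * sp σ (b e)) ^ (if β then 1 else 0) *
          (if β then Real.sinh (J e) else Real.cosh (J e)) := by
      intro e
      rw [Fintype.sum_bool]
      rw [exp_spin]
      · simp; ring
      · rcases sp_pm σ (a e) with h | h <;> rcases sp_pm σ (b e) with h' | h' <;>
          rw [h, h'] <;> norm_num
    rw [Finset.prod_congr rfl fun e _ => h1 e, Finset.prod_univ_sum, Fintype.piFinset_univ]
    refine Finset.sum_congr rfl fun η _ => ?_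
    rw [Finset.prod_mul_distrib]
  have hstep : ∑ σ : V → Bool, chi S σ * Real.exp (Ham a b J σ) =
      ∑ η : E → Bool, (∑ σ : V → Bool, ∏ v, sp σ v ^ ((if v ∈ S then 1 else 0) +
        deg a b (fun e => if η e then 1 else 0) v)) *
        ∏ e, (if η e then Real.sinh (J e) else Real.cosh (J e)) := by
    rw [Finset.sum_congr rfl fun σ _ => by rw [hexp σ, Finset.mul_sum]]
    rw [Finset.sum_comm]
    refine Finset.sum_congr rfl fun η _ => ?_
    rw [Finset.sum_mul]
    refine Finset.sum_congr rfl fun σ _ => ?_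
    rw [← mul_assoc]
    congr 1
    rw [chi_eq, ← prod_deg, ← Finset.prod_mul_distrib]
    refine Finset.prod_congr rfl fun v _ => ?_
    rw [pow_add]
  rw [hstep]
  unfold Zc
  rw [Finset.mul_sum]
  refine Finset.sum_congr rfl fun η _ => ?_
  rw [sum_prod_pow]
  have hiff : (∀ v, Even ((if v ∈ S then 1 else 0) + deg a b (fun e => if η e then 1 else 0) v)) ↔
      IsSrc a b (fun e => if η e then 1 else 0) S := by
    unfold IsSrc
    refine forall_congr' fun v => ?_
    by_cases hv : v ∈ S
    · rw [if_pos hv, add_comm, Nat.even_add_one, Nat.not_even_iff_odd]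
      simp [hv]
    · rw [if_neg hv, zero_add, ← Nat.not_odd_iff_even]
      simp [hv]
  by_cases h : IsSrc a b (fun e => if η e then 1 else 0) S
  · rw [if_pos (hiff.mpr h), if_pos h]
  · rw [if_neg (fun h' => h (hiff.mp h')), if_neg h]; ring

end Pool.RCM
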